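import Pool.Agent.W622.ETC.Stm

set_option autoImplicit false

namespace Pool.Agent.W737.ELT

open Pool.Agent.W622.ETC Module

section
variable {V : Type} [AddCommGroup V] [Module (ZMod 2) V] [Finite V]

lemma exists_01 {p g : Dl V} (hg : g ≠ 0) (hpg : p ≠ 0) (hne : p ≠ g) :
    ∃ a : V, p a = 1 ∧ g a = 0 := by
  have h : p ∉ Submodule.span (ZMod 2) {g} := by
    intro h
    rcases span_one_mem.mp h with h | h
    · exact hpg h
    · exact hne h
  obtain ⟨b, hb, hb1⟩ := exists_coann h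
  exact ⟨b, hb1, hb g (Submodule.mem_span_singleton_self g)⟩

lemma mem_sp_wd {p g : Dl V} (hp : p ≠ 0) (hg : g ≠ 0) (hne : p ≠ g) :
    p ∈ sp (wd p g) ∧ g ∈ sp (wd p g) := by
  constructor
  · obtain ⟨a, ha, hb⟩ := exists_01 hp hg (Ne.symm hne)
    refine ⟨a, ?_⟩
    rw [wd_apply, ha, hb]
    simp
  · obtain ⟨a, ha, hb⟩ := exists_01 hg hp hne
    refine ⟨a, ?_⟩
    rw [wd_apply, ha, hb]
    simp

lemma finrank_sp_wd (p g : Dl V) : finrank (ZMod 2) (sp (wd p g)) ≤ 2 := by
  classical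
  have h1 : finrank (ZMod 2) (sp (wd p g)) ≤
      finrank (ZMod 2) (Submodule.span (ZMod 2) ({p, g} : Set (Dl V))) :=
    Submodule.finrank_mono (sp_wd_le p g)
  have h2 : finrank (ZMod 2) (Submodule.span (ZMod 2) ((({p, g} : Finset (Dl V)) : Set (Dl V)))) ≤
      ({p, g} : Finset (Dl V)).card := finrank_span_finset_le_card _
  have h3 : ({p, g} : Finset (Dl V)).card ≤ 2 := Finset.card_le_two
  have h4 : (({p, g} : Finset (Dl V)) : Set (Dl V)) = {p, g} := by simp
  rw [h4] at h2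
  omega

end

theorem t_STAR (hLU : S_LU) (hDEC : S_DEC) (hEVEN : S_EVEN) (hSPLIT : S_SPLIT) (hFULL : S_FULL) :
    S_STAR := by
  intro V _ _ _ A X b s hMC hgood hb hs
  have hA : AltFam A := hMC.alt
  have hB : AltFam (res A (ann b)) := hA.res _
  have hlu : LU (res A X) := hLU V (res A X) (hA.res X) (hMC.her.res X)
  obtain ⟨hd1, hd2, hd3⟩ := hDEC V A X hA
  -- the part of a member of `A_b` is in `A_b`
  have hpart : ∀ ζ ∈ res A (ann b), ∃ π ∈ res A (ann b), sp π ≤ X ∧ sp π ≤ sp ζ ∧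
      (∀ v, ζ v ∈ X → π v = ζ v) := by
    intro ζ hζ
    obtain ⟨π, hπ⟩ := hd1 hlu hgood ζ hζ.1
    obtain ⟨e1, e2, e3⟩ := hd3 ζ hζ.1 π hπ
    have h1 := mem_res'.mp hπ.1
    refine ⟨π, ?_, h1.2, e2, e3⟩
    rw [mem_res']
    exact ⟨h1.1, e2.trans (mem_res'.mp hζ).2⟩
  constructor
  · intro Z hZ
    by_cases hdis : Disjoint Z X
    · exact Or.inr hdis
    left
    obtain ⟨h, hhZ, hhX, hh0⟩ : ∃ h : Dl V, h ∈ Z ∧ h ∈ X ∧ h ≠ 0 := by
      by_contra hc
      push Not at hc
      apply hdis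
      rw [Submodule.disjoint_def]
      exact hc
    rcases hs.2.2 Z hZ with ⟨ω, hω, rfl⟩ | ⟨q, hq3, hqZ, hq0, hqg⟩
    · obtain ⟨c, hc⟩ := hhZ
      obtain ⟨π, hπB, hπX, hπω, hπv⟩ := hpart ω hω.1
      have h1 : π c = h := by rw [hπv c (by rw [hc]; exact hhX), hc]
      rcases hω.2.2 π hπB hπω with h2 | h2
      · exfalso
        rw [h2] at h1
        exact hh0 h1.symm
      · rw [← h2]; exact hπX
    · -- cone
      have key : ∀ g ∈ Z, g ≠ 0 → q ≠ g → (∃ k ∈ sp (wd q g), k ∈ X ∧ k ≠ 0) →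
          q ∈ X ∧ g ∈ X := by
        intro g hg hg0 hqg' ⟨k, hk, hkX, hk0⟩
        obtain ⟨π, hπB, hπX, hπω, hπv⟩ := hpart (wd q g) (hqg g hg)
        obtain ⟨c, hc⟩ := hk
        have h1 : π c = k := by rw [hπv c (by rw [hc]; exact hkX), hc]
        have h2 : π ≠ 0 := by
          intro h
          rw [h] at h1
          exact hk0 h1.symm
        have h3 : finrank (ZMod 2) (sp π) ≠ 0 := by
          intro h
          exact h2 (sp_eq_bot.mp (Submodule.finrank_eq_zero.mp h))
        have h4 := hEVEN V π (hB π hπB)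
        have h5 : 2 ≤ finrank (ZMod 2) (sp π) := by
          obtain ⟨m, hm⟩ := h4
          omega
        have h6 : sp π = sp (wd q g) :=
          Submodule.eq_of_le_of_finrank_le hπω ((finrank_sp_wd q g).trans h5)
        obtain ⟨m1, m2⟩ := mem_sp_wd hq0 hg0 hqg'
        rw [← h6] at m1 m2
        exact ⟨hπX m1, hπX m2⟩
      have hqX : q ∈ X := by
        by_cases hqh : q = h
        · rw [hqh]; exact hhX
        · exact (key h hhZ hh0 hqh ⟨h, (mem_sp_wd hq0 hh0 hqh).2, hhX, hh0⟩).1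
      intro g hg
      by_cases hg0 : g = 0
      · rw [hg0]; exact X.zero_mem
      by_cases hqg' : q = g
      · rw [← hqg']; exact hqX
      exact (key g hg hg0 hqg' ⟨q, (mem_sp_wd hq0 hg0 hqg').1, hqX, hq0⟩).2
  · -- second part
    have ind : ∀ (n : ℕ) (t : Set (DSub V)), t ⊆ s → t.ncard = n → (∀ Z ∈ t, Disjoint Z X) →
        ∀ π ∈ res (res A (ann b)) (sSup t), sp π ≤ X → π = 0 := by
      intro n
      induction n with
      | zero =>
        intro t ht hn _ π hπ _
        have h0 : t = ∅ := (Set.ncard_eq_zero (Set.toFinite t)).mp hn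
        rw [h0, sSup_empty, res_bot] at hπ
        exact (Submodule.mem_bot _).mp hπ
      | succ n ih =>
        intro t ht hn hdis π hπ hπX
        have hne : t.Nonempty := by
          rw [Set.nonempty_iff_ne_empty]
          rintro rfl
          simp at hn
        obtain ⟨Z0, hZ0⟩ := hne
        obtain ⟨-, -, hc⟩ := hSPLIT V _ s t hB hs ht
        obtain ⟨e1, e2, -⟩ := hSPLIT V _ t {Z0} (hB.res _) hc (Set.singleton_subset_iff.mpr hZ0)
        rw [sSup_singleton] at e1 e2
        rw [e1] at hπ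
        obtain ⟨α, hα, β, hβ, hαβ⟩ := Submodule.mem_sup.mp hπ
        have hα' := mem_res'.mp hα
        have hβ' := mem_res'.mp hβ
        have hsp : sp (α + β) = sp α ⊔ sp β :=
          sp_add ((hB.res _) α hα'.1) ((hB.res _) β hβ'.1)
            (e2.mono hα'.2 hβ'.2)
        have hα0 : α = 0 := by
          rw [← sp_eq_bot, ← le_bot_iff]
          have h1 : sp α ≤ X := by
            refine le_trans ?_ hπX
            rw [← hαβ, hsp]
            exact le_sup_left
          exact (hdis Z0 hZ0) hα'.2 h1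
        have hπβ : π = β := by rw [← hαβ, hα0, zero_add]
        rw [hπβ] at hπX ⊢
        apply ih (t \ {Z0}) (Set.diff_subset.trans ht)
        · rw [Set.ncard_diff_singleton_of_mem hZ0, hn]; rfl
        · intro Z hZ
          exact hdis Z hZ.1
        · rw [mem_res']
          exact ⟨(mem_res'.mp hβ'.1).1, hβ'.2⟩
        · exact hπX
    set t : Set (DSub V) := {Z | Z ∈ s ∧ Disjoint Z X} with ht
    have hts : t ⊆ s := fun Z hZ => hZ.1
    rw [Submodule.disjoint_def]
    intro h hht hhX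
    by_contra hh0
    obtain ⟨-, -, hc⟩ := hSPLIT V _ s t hB hs hts
    obtain ⟨ω, hω, c, hωc⟩ := hFULL V _ t h (hB.res _) hc hht
    obtain ⟨π, hπB, hπX, hπω, hπv⟩ := hpart ω hω.1
    have h1 : π c = h := by rw [hπv c (by rw [hωc]; exact hhX), hωc]
    have h2 : π = 0 := by
      apply ind _ t hts rfl (fun Z hZ => hZ.2) π
      · rw [mem_res']
        exact ⟨hπB, hπω.trans (mem_res'.mp hω).2⟩
      · exact hπX
    rw [h2] at h1
    exact hh0 h1.symm

end Pool.Agent.W737.ELT
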